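import Pool.Agent.D0H15.TI.Stm

/-!
# Project TI (helper15), module FLD: from an `S_n`-field to the field which belongs to `H`
-/

set_option autoImplicit false

open NumberField

namespace Pool.Agent.D0H28.TI

open Pool.Agent.D0H15.TI IntermediateField

/-- cosets as the points of a homogeneous space -/
theorem cosets {Γ G E : Type} [Group Γ] [Group G] (r : Γ →* G) (hr : Function.Surjective r)
    (S : Subgroup G) (π : Γ → E) (hπ : Function.Surjective π)
    (h : ∀ σ τ, π σ = π τ ↔ r (σ⁻¹ * τ) ∈ S) :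
    ∃ e : E ≃ G ⧸ S, ∀ σ, e (π σ) = (r σ : G ⧸ S) := by
  have key : ∀ σ, ((r (Function.surjInv hπ (π σ)) : G) : G ⧸ S) = (r σ : G ⧸ S) := by
    intro σ
    rw [QuotientGroup.eq, ← map_inv, ← map_mul]
    exact (h _ _).1 (Function.surjInv_eq hπ (π σ))
  refine ⟨Equiv.ofBijective (fun e => ((r (Function.surjInv hπ e) : G) : G ⧸ S)) ⟨?_, ?_⟩, key⟩
  · intro e₁ e₂ he
    obtain ⟨σ, rfl⟩ := hπ e₁
    obtain ⟨τ, rfl⟩ := hπ e₂
    simp only [key] at he
    rw [QuotientGroup.eq, ← map_inv, ← map_mul] at he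
    exact (h _ _).2 he
  · intro x
    obtain ⟨g, rfl⟩ := QuotientGroup.mk_surjective x
    obtain ⟨σ, rfl⟩ := hr g
    exact ⟨π σ, key σ⟩

theorem isAlg : Algebra.IsAlgebraic ℚ Qb := by
  have h : @Algebra.IsAlgebraic ℚ (AlgebraicClosure ℚ) _ _ (AlgebraicClosure.instAlgebra ℚ) :=
    AlgebraicClosure.isAlgebraic ℚ
  have e : (AlgebraicClosure.instAlgebra ℚ : Algebra ℚ (AlgebraicClosure ℚ)) =
      DivisionRing.toRatAlgebra := Subsingleton.elim _ _
  rw [e] at h
  exact h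

attribute [local instance] isAlg

theorem isACl : IsAlgClosure ℚ Qb := ⟨inferInstance, inferInstance⟩

attribute [local instance] isACl

/-- the restriction of an automorphism to `K` -/
noncomputable def pr (K : IntermediateField ℚ Qb) (σ : Qb ≃ₐ[ℚ] Qb) : K →ₐ[ℚ] Qb :=
  σ.toAlgHom.comp K.val

theorem pr_apply (K : IntermediateField ℚ Qb) (σ : Qb ≃ₐ[ℚ] Qb) (x : K) : pr K σ x = σ x := rfl

theorem pr_mul (K : IntermediateField ℚ Qb) (σ τ : Qb ≃ₐ[ℚ] Qb) :
    pr K (σ * τ) = σ.toAlgHom.comp (pr K τ) := rfl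

theorem pr_surj (K : IntermediateField ℚ Qb) : Function.Surjective (pr K) := by
  intro φ
  let ψ : Qb →ₐ[ℚ] Qb := φ.liftNormal Qb
  have hψ : Function.Bijective ψ := Algebra.IsAlgebraic.algHom_bijective ψ
  refine ⟨AlgEquiv.ofBijective ψ hψ, ?_⟩
  ext x
  exact φ.liftNormal_commutes Qb x

theorem pr_eq (K : IntermediateField ℚ Qb) (σ τ : Qb ≃ₐ[ℚ] Qb) :
    pr K σ = pr K τ ↔ σ⁻¹ * τ ∈ K.fixingSubgroup := by
  rw [IntermediateField.mem_fixingSubgroup_iff]
  constructor
  · intro h x hx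
    have h1 : pr K σ ⟨x, hx⟩ = pr K τ ⟨x, hx⟩ := by rw [h]
    rw [pr_apply, pr_apply] at h1
    change σ⁻¹ (τ x) = x
    rw [← h1]
    exact σ.symm_apply_apply x
  · intro h
    ext x
    rw [pr_apply, pr_apply]
    have h1 : σ⁻¹ (τ (x : Qb)) = x := h x x.2
    have h2 : σ (σ⁻¹ (τ (x : Qb))) = σ (x : Qb) := by rw [h1]
    rw [← h2]
    exact (σ.apply_symm_apply _)

/-- the elements which fix the normal closure -/
theorem fix_nc (K : IntermediateField ℚ Qb) (σ : Qb ≃ₐ[ℚ] Qb) :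
    σ ∈ (normalClosure ℚ K Qb).fixingSubgroup ↔ ∀ φ : K →ₐ[ℚ] Qb, σ.toAlgHom.comp φ = φ := by
  have h0 : σ ∈ (normalClosure ℚ K Qb).fixingSubgroup ↔
      normalClosure ℚ K Qb ≤ fixedField (Subgroup.zpowers σ) := by
    rw [IntermediateField.le_iff_le, Subgroup.zpowers_le]
  rw [h0, normalClosure_le_iff]
  refine forall_congr' fun φ => ?_
  constructor
  · intro h
    ext x
    have h1 : φ x ∈ fixedField (Subgroup.zpowers σ) := h ⟨x, rfl⟩
    rw [IntermediateField.mem_fixedField_iff] at h1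
    exact h1 σ (Subgroup.mem_zpowers σ)
  · rintro h _ ⟨x, rfl⟩
    have h2 : σ ∈ (φ.fieldRange).fixingSubgroup := by
      rw [IntermediateField.mem_fixingSubgroup_iff]
      rintro _ ⟨y, rfl⟩
      exact DFunLike.congr_fun h y
    have h3 : Subgroup.zpowers σ ≤ (φ.fieldRange).fixingSubgroup := by
      rw [Subgroup.zpowers_le]; exact h2
    have h4 := (IntermediateField.le_iff_le (Subgroup.zpowers σ) φ.fieldRange).2 h3
    exact h4 ⟨x, rfl⟩

/-- the subfield of `M` which belongs to `K` -/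
noncomputable def sub (M : Type) [Field M] [CharZero M] [Algebra M Qb]
    (K : IntermediateField ℚ Qb) : IntermediateField ℚ M :=
  K.comap (IsScalarTower.toAlgHom ℚ M Qb)

theorem mem_sub (M : Type) [Field M] [CharZero M] [Algebra M Qb] (K : IntermediateField ℚ Qb)
    (x : M) : x ∈ sub M K ↔ algebraMap M Qb x ∈ K := Iff.rfl

/-- `K` as a subfield of `M` is `K` -/
theorem eqv (M : Type) [Field M] [CharZero M] [Algebra M Qb] (K : IntermediateField ℚ Qb)
    (hK : ∀ x ∈ K, ∃ y : M, algebraMap M Qb y = x) : Nonempty (sub M K ≃+* K) := by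
  let f : sub M K →+* K :=
    { toFun := fun x => ⟨algebraMap M Qb x.1, x.2⟩
      map_one' := Subtype.ext (map_one (algebraMap M Qb))
      map_zero' := Subtype.ext (map_zero (algebraMap M Qb))
      map_add' := fun x y => Subtype.ext (map_add (algebraMap M Qb) x.1 y.1)
      map_mul' := fun x y => Subtype.ext (map_mul (algebraMap M Qb) x.1 y.1) }
  refine ⟨RingEquiv.ofBijective f ⟨f.injective, ?_⟩⟩
  intro x
  obtain ⟨y, hy⟩ := hK x x.2
  exact ⟨⟨y, by rw [mem_sub, hy]; exact x.2⟩, Subtype.ext hy⟩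

/-- the cosets at the finite level -/
theorem level (M : Type) [Field M] [CharZero M] [Algebra M Qb] [Normal ℚ M]
    (K : IntermediateField ℚ Qb) (hK : ∀ x ∈ K, ∃ y : M, algebraMap M Qb y = x) :
    ∃ e : (K →ₐ[ℚ] Qb) ≃ ((M ≃ₐ[ℚ] M) ⧸ (sub M K).fixingSubgroup),
      ∀ σ : Qb ≃ₐ[ℚ] Qb, e (pr K σ) =
        QuotientGroup.mk (s := (sub M K).fixingSubgroup) (AlgEquiv.restrictNormalHom M σ) := by
  refine cosets (AlgEquiv.restrictNormalHom M) (AlgEquiv.restrictNormalHom_surjective Qb) _ (pr K)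
    (pr_surj K) ?_
  intro σ τ
  rw [pr_eq, IntermediateField.mem_fixingSubgroup_iff, IntermediateField.mem_fixingSubgroup_iff]
  have hc : ∀ x : M, algebraMap M Qb (AlgEquiv.restrictNormalHom M (σ⁻¹ * τ) x) =
      (σ⁻¹ * τ) (algebraMap M Qb x) :=
    fun x => AlgEquiv.restrictNormal_commutes (σ⁻¹ * τ) M x
  constructor
  · intro h x hx
    apply (algebraMap M Qb).injective
    rw [hc]
    exact h _ ((mem_sub M K x).1 hx)
  · intro h x hx
    obtain ⟨y, rfl⟩ := hK x hx
    rw [← hc, h y ((mem_sub M K y).2 hx)]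

/-- the permutations of the embeddings -/
noncomputable def act (K : IntermediateField ℚ Qb) :
    (Qb ≃ₐ[ℚ] Qb) →* Equiv.Perm (K →ₐ[ℚ] Qb) where
  toFun σ :=
    { toFun := fun φ => σ.toAlgHom.comp φ
      invFun := fun φ => σ.symm.toAlgHom.comp φ
      left_inv := fun φ => by ext x; exact σ.symm_apply_apply _
      right_inv := fun φ => by ext x; exact σ.apply_symm_apply _ }
  map_one' := by ext; rfl
  map_mul' σ τ := by ext; rfl

theorem act_apply (K : IntermediateField ℚ Qb) (σ : Qb ≃ₐ[ℚ] Qb) (φ : K →ₐ[ℚ] Qb) :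
    act K σ φ = σ.toAlgHom.comp φ := rfl

/-- equivariance -/
theorem equiv {G : Type} [Group G] (r : (Qb ≃ₐ[ℚ] Qb) →* G) (S : Subgroup G)
    (K : IntermediateField ℚ Qb) (e : (K →ₐ[ℚ] Qb) ≃ G ⧸ S)
    (he : ∀ σ : Qb ≃ₐ[ℚ] Qb, e (pr K σ) = QuotientGroup.mk (s := S) (r σ))
    (σ : Qb ≃ₐ[ℚ] Qb) (φ : K →ₐ[ℚ] Qb) : e (σ.toAlgHom.comp φ) = r σ • e φ := by
  obtain ⟨τ, rfl⟩ := pr_surj K φ
  rw [← pr_mul, he, he, map_mul]
  rfl

/-- the statement for a field isomorphic to the normal closure -/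
theorem t_FLD_aux (hD : S_DISC) (n : ℕ) (H : Subgroup (Equiv.Perm (Fin n))) (t : ℕ)
    (L : IntermediateField ℚ Qb) [NumberField L] (hH : H.normalCore = ⊥)
    (ht : ∀ s : Equiv.Perm (Fin n), s.IsSwap →
      Nat.card {z : Equiv.Perm (Fin n) ⧸ H // s • z ≠ z} ≤ 2 * t)
    (hn : Module.finrank ℚ L = n) (hS : Sym L)
    (hp : ∀ p : ℕ, p.Prime → p ≤ n → ¬ (p : ℤ) ∣ NumberField.discr L)
    (M : Type) [Field M] [NumberField M] [IsGalois ℚ M] [Algebra M Qb]
    (hM : ∀ x : Qb, x ∈ normalClosure ℚ L Qb ↔ ∃ y : M, algebraMap M Qb y = x) :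
    ∃ F : IntermediateField ℚ Qb, Typ H F ∧
      IntermediateField.normalClosure ℚ F Qb = IntermediateField.normalClosure ℚ L Qb ∧
      ∃ _ : NumberField F, (NumberField.discr F).natAbs ≤ (NumberField.discr L).natAbs ^ t := by
  classical
  set N := normalClosure ℚ L Qb with hN
  have hfL : FiniteDimensional ℚ L := NumberField.to_finiteDimensional
  have hcard : Fintype.card (L →ₐ[ℚ] Qb) = n := by rw [AlgHom.card]; exact hn
  let e₀ : (L →ₐ[ℚ] Qb) ≃ Fin n := Fintype.equivFinOfCardEq hcard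
  let ρ : (Qb ≃ₐ[ℚ] Qb) →* Equiv.Perm (Fin n) := (e₀.permCongrHom).toMonoidHom.comp (act L)
  have hρa : ∀ σ (i : Fin n), ρ σ i = e₀ (σ.toAlgHom.comp (e₀.symm i)) := fun σ i => rfl
  have hρ : Function.Surjective ρ := by
    intro π
    obtain ⟨σ, hσ⟩ := hS ((e₀.permCongr).symm π)
    refine ⟨σ, ?_⟩
    ext i
    rw [hρa, ← hσ]
    simp
  have hker : ∀ σ, ρ σ = 1 ↔ σ ∈ N.fixingSubgroup := by
    intro σ
    rw [hN, fix_nc]
    constructor
    · intro h φ
      have h1 := congrArg (fun π : Equiv.Perm (Fin n) => π (e₀ φ)) h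
      simp only [hρa, Equiv.symm_apply_apply, Equiv.Perm.coe_one, id] at h1
      exact e₀.injective h1
    · intro h
      ext i
      rw [hρa, h]; simp
  have hNker : N.fixingSubgroup ≤ H.comap ρ := by
    intro σ hσ
    change ρ σ ∈ H
    rw [(hker σ).2 hσ]; exact H.one_mem
  have hfN : FiniteDimensional ℚ N := normalClosure.is_finiteDimensional ℚ L Qb
  have hopen : IsOpen (H.comap ρ : Set (Qb ≃ₐ[ℚ] Qb)) :=
    Subgroup.isOpen_mono hNker (N.fixingSubgroup_isOpen)
  have hcl : IsClosed (H.comap ρ : Set (Qb ≃ₐ[ℚ] Qb)) := Subgroup.isClosed_of_isOpen _ hopen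
  let F : IntermediateField ℚ Qb := fixedField (H.comap ρ)
  have hF : F.fixingSubgroup = H.comap ρ :=
    InfiniteGalois.fixingSubgroup_fixedField
      (⟨H.comap ρ, hcl⟩ : ClosedSubgroup (Qb ≃ₐ[ℚ] Qb))
  have hFN : F ≤ N := by
    rw [← InfiniteGalois.fixedField_fixingSubgroup N]
    intro x hx
    rw [IntermediateField.mem_fixedField_iff] at hx ⊢
    exact fun f hf => hx f (hNker hf)
  have hLN : L ≤ N := IntermediateField.le_normalClosure L
  have hLM : ∀ x ∈ L, ∃ y : M, algebraMap M Qb y = x := fun x hx => (hM x).1 (hLN hx)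
  have hFM : ∀ x ∈ F, ∃ y : M, algebraMap M Qb y = x := fun x hx => (hM x).1 (hFN hx)
  obtain ⟨eF, heF0⟩ := cosets ρ hρ H (pr F) (pr_surj F) (fun σ τ => by rw [pr_eq, hF]; rfl)
  have heF := equiv ρ H F eF heF0
  obtain ⟨eL, heL0⟩ := level M L hLM
  have heL := equiv _ _ L eL heL0
  obtain ⟨eG, heG0⟩ := level M F hFM
  have heG := equiv _ _ F eG heG0
  have hfix : (normalClosure ℚ F Qb).fixingSubgroup = N.fixingSubgroup := by
    ext σ
    rw [fix_nc, ← hker]
    have h1 : ρ σ = 1 ↔ ρ σ ∈ H.normalCore := by rw [hH, Subgroup.mem_bot]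
    rw [h1, Subgroup.normalCore_eq_ker, MonoidHom.mem_ker, Equiv.ext_iff]
    constructor
    · intro h z
      obtain ⟨φ, rfl⟩ := eF.surjective z
      change ρ σ • eF φ = eF φ
      rw [← heF, h]
    · intro h φ
      apply eF.injective
      rw [heF]
      exact h (eF φ)
  have hnc : normalClosure ℚ F Qb = N := by
    rw [← InfiniteGalois.fixedField_fixingSubgroup (normalClosure ℚ F Qb), hfix,
      InfiniteGalois.fixedField_fixingSubgroup N]
  obtain ⟨uL⟩ := eqv M L hLM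
  obtain ⟨uF⟩ := eqv M F hFM
  have hNF : NumberField F := NumberField.of_ringEquiv _ _ uF
  refine ⟨F, ⟨eF, ρ, hρ, heF⟩, hnc, hNF, ?_⟩
  have hdL : NumberField.discr (sub M L) = NumberField.discr L :=
    NumberField.discr_eq_discr_of_ringEquiv _ uL
  have hdF : NumberField.discr (sub M F) = NumberField.discr F :=
    NumberField.discr_eq_discr_of_ringEquiv _ uF
  rw [← hdL, ← hdF]
  have hsurj : Function.Surjective
      (AlgEquiv.restrictNormalHom M : (Qb ≃ₐ[ℚ] Qb) →* (M ≃ₐ[ℚ] M)) :=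
    AlgEquiv.restrictNormalHom_surjective Qb
  refine hD M (sub M L) (sub M F) t ?_ ?_ ?_ ?_
  · rw [eq_bot_iff]
    intro g hg
    obtain ⟨σ, rfl⟩ := hsurj g
    rw [Subgroup.normalCore_eq_ker, MonoidHom.mem_ker, Equiv.ext_iff] at hg
    have h2 : σ ∈ N.fixingSubgroup := by
      rw [hN, fix_nc]
      intro φ
      apply eL.injective
      rw [heL]
      exact hg (eL φ)
    rw [Subgroup.mem_bot]
    ext x
    apply (algebraMap M Qb).injective
    have h3 : algebraMap M Qb (AlgEquiv.restrictNormalHom M σ x) = σ (algebraMap M Qb x) :=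
      AlgEquiv.restrictNormal_commutes σ M x
    rw [h3]
    rw [IntermediateField.mem_fixingSubgroup_iff] at h2
    exact h2 _ ((hM _).2 ⟨x, rfl⟩)
  · intro a b
    obtain ⟨σ, hσ⟩ := hS ((eL.permCongr).symm (Equiv.swap a b))
    refine ⟨AlgEquiv.restrictNormalHom M σ, fun x => ?_⟩
    obtain ⟨φ, rfl⟩ := eL.surjective x
    rw [← heL, ← hσ]
    simp
  · rintro g ⟨a, b, hab, hg⟩
    obtain ⟨σ, rfl⟩ := hsurj g
    have hsw : ρ σ = Equiv.swap (e₀ (eL.symm a)) (e₀ (eL.symm b)) := by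
      ext i
      have h4 : eL (σ.toAlgHom.comp (e₀.symm i)) = Equiv.swap a b (eL (e₀.symm i)) := by
        rw [heL, hg]
      rw [hρa, ← eL.symm_apply_apply (σ.toAlgHom.comp (e₀.symm i)), h4]
      have h5 : ∀ y, e₀ (eL.symm (Equiv.swap a b (eL (e₀.symm y)))) =
          Equiv.swap (e₀ (eL.symm a)) (e₀ (eL.symm b)) y := by
        intro y
        have h6 := Equiv.symm_trans_swap_trans a b (eL.symm.trans e₀)
        have h7 := Equiv.congr_fun h6 y
        simpa using h7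
      rw [h5]
    have his : (ρ σ).IsSwap :=
      ⟨_, _, fun h => hab (eL.symm.injective (e₀.injective h)), hsw⟩
    refine le_trans (le_of_eq ?_) (ht (ρ σ) his)
    refine Nat.card_congr ((eG.symm.trans eF).subtypeEquiv ?_)
    intro z
    obtain ⟨φ, rfl⟩ := eG.surjective z
    rw [← heG, Equiv.trans_apply, Equiv.symm_apply_apply, ← heF, eG.injective.ne_iff,
      eF.injective.ne_iff]
  · intro p hpp hpn
    rw [hdL]
    refine hp p hpp (le_trans hpn (le_of_eq ?_))
    rw [← hn]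
    exact (AlgEquiv.ofRingEquiv (f := uL) (R := ℚ) (fun _ => by simp)).toLinearEquiv.finrank_eq

theorem t_FLD : S_DISC → S_FLD := by
  intro hD n H t L _ hH ht hn hS hp
  have hfL : FiniteDimensional ℚ L := NumberField.to_finiteDimensional
  have hfN : FiniteDimensional ℚ (normalClosure ℚ L Qb) :=
    normalClosure.is_finiteDimensional ℚ L Qb
  have hNN : NumberField (normalClosure ℚ L Qb) :=
    { to_charZero := inferInstance
      to_finiteDimensional := by convert hfN }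
  have hnor : Normal ℚ (normalClosure ℚ L Qb) := by
    have := normalClosure.normal ℚ L Qb
    convert this
    exact Subsingleton.elim _ _
  have hgal : IsGalois ℚ (normalClosure ℚ L Qb) := ⟨⟩
  exact t_FLD_aux hD n H t L hH ht hn hS hp (normalClosure ℚ L Qb)
    (fun x => ⟨fun hx => ⟨⟨x, hx⟩, rfl⟩, fun ⟨y, hy⟩ => by rw [← hy]; exact y.2⟩)

end Pool.Agent.D0H28.TI
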