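import Pool.Agent.D0H15.TI.Stm2
import Pool.Agent.D0H28.TI.FLD

/-!
# Project TI (helper15), module FLD2: from an `S_n`-field to the field which belongs to `H`, over a
number field `K`
-/

set_option autoImplicit false

open NumberField

namespace Pool.Agent.D0H28.TI.Rel

open Pool.Agent.D0H15.TI Pool.Agent.D0H28.TI IntermediateField

set_option linter.unusedSectionVars false

variable {K Ω : Type} [Field K] [CharZero K] [Field Ω] [Algebra K Ω] [IsAlgClosure K Ω]

/-- the restriction of an automorphism to `E` -/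
noncomputable def pr (E : IntermediateField K Ω) (σ : Ω ≃ₐ[K] Ω) : E →ₐ[K] Ω :=
  σ.toAlgHom.comp E.val

theorem pr_apply (E : IntermediateField K Ω) (σ : Ω ≃ₐ[K] Ω) (x : E) : pr E σ x = σ x := rfl

theorem pr_mul (E : IntermediateField K Ω) (σ τ : Ω ≃ₐ[K] Ω) :
    pr E (σ * τ) = σ.toAlgHom.comp (pr E τ) := rfl

theorem pr_surj (E : IntermediateField K Ω) : Function.Surjective (pr E) := by
  intro φ
  let ψ : Ω →ₐ[K] Ω := φ.liftNormal Ω
  have hψ : Function.Bijective ψ := Algebra.IsAlgebraic.algHom_bijective ψ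
  refine ⟨AlgEquiv.ofBijective ψ hψ, ?_⟩
  ext x
  exact φ.liftNormal_commutes Ω x

theorem pr_eq (E : IntermediateField K Ω) (σ τ : Ω ≃ₐ[K] Ω) :
    pr E σ = pr E τ ↔ σ⁻¹ * τ ∈ E.fixingSubgroup := by
  rw [IntermediateField.mem_fixingSubgroup_iff]
  constructor
  · intro h x hx
    have h1 : pr E σ ⟨x, hx⟩ = pr E τ ⟨x, hx⟩ := by rw [h]
    rw [pr_apply, pr_apply] at h1
    change σ⁻¹ (τ x) = x
    rw [← h1]
    exact σ.symm_apply_apply x
  · intro h
    ext x
    rw [pr_apply, pr_apply]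
    have h1 : σ⁻¹ (τ (x : Ω)) = x := h x x.2
    have h2 : σ (σ⁻¹ (τ (x : Ω))) = σ (x : Ω) := by rw [h1]
    rw [← h2]
    exact (σ.apply_symm_apply _)

/-- the elements which fix the normal closure -/
theorem fix_nc (E : IntermediateField K Ω) (σ : Ω ≃ₐ[K] Ω) :
    σ ∈ (normalClosure K E Ω).fixingSubgroup ↔ ∀ φ : E →ₐ[K] Ω, σ.toAlgHom.comp φ = φ := by
  have h0 : σ ∈ (normalClosure K E Ω).fixingSubgroup ↔
      normalClosure K E Ω ≤ fixedField (Subgroup.zpowers σ) := by
    rw [IntermediateField.le_iff_le, Subgroup.zpowers_le]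
  rw [h0, normalClosure_le_iff]
  refine forall_congr' fun φ => ?_
  constructor
  · intro h
    ext x
    have h1 : φ x ∈ fixedField (Subgroup.zpowers σ) := h ⟨x, rfl⟩
    rw [IntermediateField.mem_fixedField_iff] at h1
    exact h1 σ (Subgroup.mem_zpowers σ)
  · rintro h _ ⟨x, rfl⟩
    have h2 : σ ∈ (φ.fieldRange).fixingSubgroup := by
      rw [IntermediateField.mem_fixingSubgroup_iff]
      rintro _ ⟨y, rfl⟩
      exact DFunLike.congr_fun h y
    have h3 : Subgroup.zpowers σ ≤ (φ.fieldRange).fixingSubgroup := by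
      rw [Subgroup.zpowers_le]; exact h2
    have h4 := (IntermediateField.le_iff_le (Subgroup.zpowers σ) φ.fieldRange).2 h3
    exact h4 ⟨x, rfl⟩

/-- the subfield of `M` which belongs to `E` -/
noncomputable def sub (M : Type) [Field M] [Algebra K M] [Algebra M Ω] [IsScalarTower K M Ω]
    (E : IntermediateField K Ω) : IntermediateField K M :=
  E.comap (IsScalarTower.toAlgHom K M Ω)

theorem mem_sub (M : Type) [Field M] [Algebra K M] [Algebra M Ω] [IsScalarTower K M Ω] (E : IntermediateField K Ω)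
    (x : M) : x ∈ sub M E ↔ algebraMap M Ω x ∈ E := Iff.rfl

/-- `E` as a subfield of `M` is `E` -/
theorem eqv (M : Type) [Field M] [Algebra K M] [Algebra M Ω] [IsScalarTower K M Ω]
    (E : IntermediateField K Ω)
    (hK : ∀ x ∈ E, ∃ y : M, algebraMap M Ω y = x) : Nonempty (sub M E ≃ₐ[K] E) := by
  let f : sub M E →ₐ[K] E :=
    { toFun := fun x => ⟨algebraMap M Ω x.1, x.2⟩
      map_one' := Subtype.ext (map_one (algebraMap M Ω))
      map_zero' := Subtype.ext (map_zero (algebraMap M Ω))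
      map_add' := fun x y => Subtype.ext (map_add (algebraMap M Ω) x.1 y.1)
      map_mul' := fun x y => Subtype.ext (map_mul (algebraMap M Ω) x.1 y.1)
      commutes' := fun r => Subtype.ext (IsScalarTower.algebraMap_apply K M Ω r).symm }
  refine ⟨AlgEquiv.ofBijective f ⟨f.injective, ?_⟩⟩
  intro x
  obtain ⟨y, hy⟩ := hK x x.2
  exact ⟨⟨y, by rw [mem_sub, hy]; exact x.2⟩, Subtype.ext hy⟩

/-- the cosets at the finite level -/
theorem level (M : Type) [Field M] [Algebra K M] [Algebra M Ω] [IsScalarTower K M Ω] [Normal K M]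
    (E : IntermediateField K Ω) (hK : ∀ x ∈ E, ∃ y : M, algebraMap M Ω y = x) :
    ∃ e : (E →ₐ[K] Ω) ≃ ((M ≃ₐ[K] M) ⧸ (sub M E).fixingSubgroup),
      ∀ σ : Ω ≃ₐ[K] Ω, e (pr E σ) =
        QuotientGroup.mk (s := (sub M E).fixingSubgroup) (AlgEquiv.restrictNormalHom M σ) := by
  refine cosets (AlgEquiv.restrictNormalHom M) (AlgEquiv.restrictNormalHom_surjective Ω) _ (pr E)
    (pr_surj E) ?_
  intro σ τ
  rw [pr_eq, IntermediateField.mem_fixingSubgroup_iff, IntermediateField.mem_fixingSubgroup_iff]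
  have hc : ∀ x : M, algebraMap M Ω (AlgEquiv.restrictNormalHom M (σ⁻¹ * τ) x) =
      (σ⁻¹ * τ) (algebraMap M Ω x) :=
    fun x => AlgEquiv.restrictNormal_commutes (σ⁻¹ * τ) M x
  constructor
  · intro h x hx
    apply (algebraMap M Ω).injective
    rw [hc]
    exact h _ ((mem_sub M E x).1 hx)
  · intro h x hx
    obtain ⟨y, rfl⟩ := hK x hx
    rw [← hc, h y ((mem_sub M E y).2 hx)]

/-- the permutations of the embeddings -/
noncomputable def act (E : IntermediateField K Ω) :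
    (Ω ≃ₐ[K] Ω) →* Equiv.Perm (E →ₐ[K] Ω) where
  toFun σ :=
    { toFun := fun φ => σ.toAlgHom.comp φ
      invFun := fun φ => σ.symm.toAlgHom.comp φ
      left_inv := fun φ => by ext x; exact σ.symm_apply_apply _
      right_inv := fun φ => by ext x; exact σ.apply_symm_apply _ }
  map_one' := by ext; rfl
  map_mul' σ τ := by ext; rfl

theorem act_apply (E : IntermediateField K Ω) (σ : Ω ≃ₐ[K] Ω) (φ : E →ₐ[K] Ω) :
    act E σ φ = σ.toAlgHom.comp φ := rfl

/-- equivariance -/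
theorem equiv {G : Type} [Group G] (r : (Ω ≃ₐ[K] Ω) →* G) (S : Subgroup G)
    (E : IntermediateField K Ω) (e : (E →ₐ[K] Ω) ≃ G ⧸ S)
    (he : ∀ σ : Ω ≃ₐ[K] Ω, e (pr E σ) = QuotientGroup.mk (s := S) (r σ))
    (σ : Ω ≃ₐ[K] Ω) (φ : E →ₐ[K] Ω) : e (σ.toAlgHom.comp φ) = r σ • e φ := by
  obtain ⟨τ, rfl⟩ := pr_surj E φ
  rw [← pr_mul, he, he, map_mul]
  rfl

/-- the relative discriminants of isomorphic fields -/
theorem rd_eq {K : Type} [Field K] [NumberField K] (E E' : Type) [Field E] [NumberField E]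
    [Field E'] [NumberField E'] [Algebra K E] [Algebra K E'] (u : E ≃ₐ[K] E') :
    rd K E = rd K E' := by
  have h1 := NumberField.natAbs_discr_eq_absNorm_differentIdeal_mul_natAbs_discr_pow K (𝒪 := 𝓞 K) E (𝓞 E)
  have h2 := NumberField.natAbs_discr_eq_absNorm_differentIdeal_mul_natAbs_discr_pow K (𝒪 := 𝓞 K) E' (𝓞 E')
  have h3 : NumberField.discr E = NumberField.discr E' :=
    NumberField.discr_eq_discr_of_ringEquiv _ u.toRingEquiv
  have h4 : Module.finrank K E = Module.finrank K E' := u.toLinearEquiv.finrank_eq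
  rw [h3, h2, h4] at h1
  have h5 : 0 < (NumberField.discr K).natAbs ^ Module.finrank K E' :=
    Nat.pow_pos (Int.natAbs_pos.2 (NumberField.discr_ne_zero K))
  exact (Nat.eq_of_mul_eq_mul_right h5 h1).symm

/-- the statement for a field isomorphic to the normal closure -/
theorem t_FLD_aux {K Ω : Type} [Field K] [NumberField K] [Field Ω] [Algebra K Ω] [IsAlgClosure K Ω]
    (hD : S_DISC2) (n : ℕ) (H : Subgroup (Equiv.Perm (Fin n))) (t : ℕ)
    (L : IntermediateField K Ω) [NumberField L] (hH : H.normalCore = ⊥)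
    (ht : ∀ s : Equiv.Perm (Fin n), s.IsSwap →
      Nat.card {z : Equiv.Perm (Fin n) ⧸ H // s • z ≠ z} ≤ 2 * t)
    (hn : Module.finrank K L = n) (hn1 : 1 ≤ n)
    (hS : ∀ τ : Equiv.Perm (L →ₐ[K] Ω), ∃ σ : Ω ≃ₐ[K] Ω, ∀ φ : L →ₐ[K] Ω, τ φ = σ.toAlgHom.comp φ)
    (hp : ∀ p : ℕ, p.Prime → p ≤ n → ¬ p ∣ rd K L)
    (M : Type) [Field M] [NumberField M] [Algebra K M] [IsGalois K M] [Algebra M Ω]
    [IsScalarTower K M Ω]
    (hM : ∀ x : Ω, x ∈ normalClosure K L Ω ↔ ∃ y : M, algebraMap M Ω y = x) :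
    ∃ F : IntermediateField K Ω, (∃ (e : (F →ₐ[K] Ω) ≃ (Equiv.Perm (Fin n) ⧸ H))
      (ρ : (Ω ≃ₐ[K] Ω) →* Equiv.Perm (Fin n)),
      Function.Surjective ρ ∧ ∀ (σ : Ω ≃ₐ[K] Ω)
        (φ : F →ₐ[K] Ω), e (σ.toAlgHom.comp φ) = ρ σ • e φ) ∧
      IntermediateField.normalClosure K F Ω = IntermediateField.normalClosure K L Ω ∧
      ∃ _ : NumberField F, rd K F ≤ rd K L ^ t := by
  classical
  set N := normalClosure K L Ω with hN
  have hACl : IsAlgClosed Ω := IsAlgClosure.isAlgClosed K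
  have hfL : FiniteDimensional K L := Module.finite_of_finrank_pos (by omega)
  have hcard : Fintype.card (L →ₐ[K] Ω) = n := by rw [AlgHom.card]; exact hn
  let e₀ : (L →ₐ[K] Ω) ≃ Fin n := Fintype.equivFinOfCardEq hcard
  let ρ : (Ω ≃ₐ[K] Ω) →* Equiv.Perm (Fin n) := (e₀.permCongrHom).toMonoidHom.comp (act L)
  have hρa : ∀ σ (i : Fin n), ρ σ i = e₀ (σ.toAlgHom.comp (e₀.symm i)) := fun σ i => rfl
  have hρ : Function.Surjective ρ := by
    intro π
    obtain ⟨σ, hσ⟩ := hS ((e₀.permCongr).symm π)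
    refine ⟨σ, ?_⟩
    ext i
    rw [hρa, ← hσ]
    simp
  have hker : ∀ σ, ρ σ = 1 ↔ σ ∈ N.fixingSubgroup := by
    intro σ
    rw [hN, fix_nc]
    constructor
    · intro h φ
      have h1 := congrArg (fun π : Equiv.Perm (Fin n) => π (e₀ φ)) h
      simp only [hρa, Equiv.symm_apply_apply, Equiv.Perm.coe_one, id] at h1
      exact e₀.injective h1
    · intro h
      ext i
      rw [hρa, h]; simp
  have hNker : N.fixingSubgroup ≤ H.comap ρ := by
    intro σ hσ
    change ρ σ ∈ H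
    rw [(hker σ).2 hσ]; exact H.one_mem
  have hfN : FiniteDimensional K N := normalClosure.is_finiteDimensional K L Ω
  have hopen : IsOpen (H.comap ρ : Set (Ω ≃ₐ[K] Ω)) :=
    Subgroup.isOpen_mono hNker (N.fixingSubgroup_isOpen)
  have hcl : IsClosed (H.comap ρ : Set (Ω ≃ₐ[K] Ω)) := Subgroup.isClosed_of_isOpen _ hopen
  let F : IntermediateField K Ω := fixedField (H.comap ρ)
  have hF : F.fixingSubgroup = H.comap ρ :=
    InfiniteGalois.fixingSubgroup_fixedField
      (⟨H.comap ρ, hcl⟩ : ClosedSubgroup (Ω ≃ₐ[K] Ω))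
  have hFN : F ≤ N := by
    rw [← InfiniteGalois.fixedField_fixingSubgroup N]
    intro x hx
    rw [IntermediateField.mem_fixedField_iff] at hx ⊢
    exact fun f hf => hx f (hNker hf)
  have hLN : L ≤ N := IntermediateField.le_normalClosure L
  have hLM : ∀ x ∈ L, ∃ y : M, algebraMap M Ω y = x := fun x hx => (hM x).1 (hLN hx)
  have hFM : ∀ x ∈ F, ∃ y : M, algebraMap M Ω y = x := fun x hx => (hM x).1 (hFN hx)
  obtain ⟨eF, heF0⟩ := cosets ρ hρ H (pr F) (pr_surj F) (fun σ τ => by rw [pr_eq, hF]; rfl)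
  have heF := equiv ρ H F eF heF0
  obtain ⟨eL, heL0⟩ := level M L hLM
  have heL := equiv _ _ L eL heL0
  obtain ⟨eG, heG0⟩ := level M F hFM
  have heG := equiv _ _ F eG heG0
  have hfix : (normalClosure K F Ω).fixingSubgroup = N.fixingSubgroup := by
    ext σ
    rw [fix_nc, ← hker]
    have h1 : ρ σ = 1 ↔ ρ σ ∈ H.normalCore := by rw [hH, Subgroup.mem_bot]
    rw [h1, Subgroup.normalCore_eq_ker, MonoidHom.mem_ker, Equiv.ext_iff]
    constructor
    · intro h z
      obtain ⟨φ, rfl⟩ := eF.surjective z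
      change ρ σ • eF φ = eF φ
      rw [← heF, h]
    · intro h φ
      apply eF.injective
      rw [heF]
      exact h (eF φ)
  have hnc : normalClosure K F Ω = N := by
    rw [← InfiniteGalois.fixedField_fixingSubgroup (normalClosure K F Ω), hfix,
      InfiniteGalois.fixedField_fixingSubgroup N]
  obtain ⟨uL⟩ := eqv M L hLM
  obtain ⟨uF⟩ := eqv M F hFM
  have hNF : NumberField F := NumberField.of_ringEquiv _ _ uF.toRingEquiv
  refine ⟨F, ⟨eF, ρ, hρ, heF⟩, hnc, hNF, ?_⟩
  have hdL : rd K (sub M L) = rd K L := rd_eq _ _ uL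
  have hdF : rd K (sub M F) = rd K F := rd_eq _ _ uF
  rw [← hdL, ← hdF]
  have hsurj : Function.Surjective
      (AlgEquiv.restrictNormalHom M : (Ω ≃ₐ[K] Ω) →* (M ≃ₐ[K] M)) :=
    AlgEquiv.restrictNormalHom_surjective Ω
  refine hD K M (sub M L) (sub M F) t ?_ ?_ ?_ ?_
  · rw [eq_bot_iff]
    intro g hg
    obtain ⟨σ, rfl⟩ := hsurj g
    rw [Subgroup.normalCore_eq_ker, MonoidHom.mem_ker, Equiv.ext_iff] at hg
    have h2 : σ ∈ N.fixingSubgroup := by
      rw [hN, fix_nc]
      intro φ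
      apply eL.injective
      rw [heL]
      exact hg (eL φ)
    rw [Subgroup.mem_bot]
    ext x
    apply (algebraMap M Ω).injective
    have h3 : algebraMap M Ω (AlgEquiv.restrictNormalHom M σ x) = σ (algebraMap M Ω x) :=
      AlgEquiv.restrictNormal_commutes σ M x
    rw [h3]
    rw [IntermediateField.mem_fixingSubgroup_iff] at h2
    exact h2 _ ((hM _).2 ⟨x, rfl⟩)
  · intro a b
    obtain ⟨σ, hσ⟩ := hS ((eL.permCongr).symm (Equiv.swap a b))
    refine ⟨AlgEquiv.restrictNormalHom M σ, fun x => ?_⟩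
    obtain ⟨φ, rfl⟩ := eL.surjective x
    rw [← heL, ← hσ]
    simp
  · rintro g ⟨a, b, hab, hg⟩
    obtain ⟨σ, rfl⟩ := hsurj g
    have hsw : ρ σ = Equiv.swap (e₀ (eL.symm a)) (e₀ (eL.symm b)) := by
      ext i
      have h4 : eL (σ.toAlgHom.comp (e₀.symm i)) = Equiv.swap a b (eL (e₀.symm i)) := by
        rw [heL, hg]
      rw [hρa, ← eL.symm_apply_apply (σ.toAlgHom.comp (e₀.symm i)), h4]
      have h5 : ∀ y, e₀ (eL.symm (Equiv.swap a b (eL (e₀.symm y)))) =
          Equiv.swap (e₀ (eL.symm a)) (e₀ (eL.symm b)) y := by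
        intro y
        have h6 := Equiv.symm_trans_swap_trans a b (eL.symm.trans e₀)
        have h7 := Equiv.congr_fun h6 y
        simpa using h7
      rw [h5]
    have his : (ρ σ).IsSwap :=
      ⟨_, _, fun h => hab (eL.symm.injective (e₀.injective h)), hsw⟩
    refine le_trans (le_of_eq ?_) (ht (ρ σ) his)
    refine Nat.card_congr ((eG.symm.trans eF).subtypeEquiv ?_)
    intro z
    obtain ⟨φ, rfl⟩ := eG.surjective z
    rw [← heG, Equiv.trans_apply, Equiv.symm_apply_apply, ← heF, eG.injective.ne_iff,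
      eF.injective.ne_iff]
  · intro p hpp hpn
    rw [hdL]
    refine hp p hpp (le_trans hpn (le_of_eq ?_))
    rw [← hn]
    exact uL.toLinearEquiv.finrank_eq

theorem t_FLD2 : S_DISC2 → S_FLD2 := by
  intro hD K _ _ n H t L _ hH ht hn hn1 hS hp
  have hfL : FiniteDimensional K L := Module.finite_of_finrank_pos (by omega)
  have hfN : FiniteDimensional K (normalClosure K L (AlgebraicClosure K)) :=
    normalClosure.is_finiteDimensional K L (AlgebraicClosure K)
  have hNN : NumberField (normalClosure K L (AlgebraicClosure K)) :=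
    NumberField.of_module_finite K _
  have hnor : Normal K (normalClosure K L (AlgebraicClosure K)) :=
    normalClosure.normal K L (AlgebraicClosure K)
  have hgal : IsGalois K (normalClosure K L (AlgebraicClosure K)) := ⟨⟩
  exact t_FLD_aux hD n H t L hH ht hn hn1 hS hp (normalClosure K L (AlgebraicClosure K))
    (fun x => ⟨fun hx => ⟨⟨x, hx⟩, rfl⟩, fun ⟨y, hy⟩ => by rw [← hy]; exact y.2⟩)

end Pool.Agent.D0H28.TI.Rel

theorem Pool.Agent.D0H28.TI.t_FLD2 : Pool.Agent.D0H15.TI.S_DISC2 → Pool.Agent.D0H15.TI.S_FLD2 :=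
  Pool.Agent.D0H28.TI.Rel.t_FLD2
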